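import Mathlib
import Pool.Agent.Helper75_tri.Main

/-!
Every complete CAT(0) space which is a two-dimensional simplicial complex of unit equilateral
triangles has asymptotic dimension at most two, with linear control.
-/

namespace Pool.Agent.Results.MP_9bf88d_al.EquilateralComplexes

/-- **Theorem.** Let `X` be a complete CAT(0) space (the midpoint inequality) which is a
two-dimensional complex of unit equilateral triangles, with its length metric. Then for every
`R > 0` there is a cover of `X` in three colours by sets of diameter at most `1000 * (R + 1)`,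
any two different sets of the same colour being at distance at least `R`. -/
theorem result {X V : Type*} [MetricSpace X] [CompleteSpace X] (Γ : SimpleGraph V)
    (β : X → V → ℝ) (hT : Helper75tri.TriComplex Γ β)
    (hX : ∀ x y : X, ∃ m : X, ∀ z : X,
      dist z m ^ 2 ≤ (dist z x ^ 2 + dist z y ^ 2) / 2 - dist x y ^ 2 / 4) :
    ∀ R : ℝ, 0 < R →
      ∃ (𝒰 : Set (Set X)) (c : Set X → Fin 3),
        (∀ x : X, ∃ U ∈ 𝒰, x ∈ U) ∧
        (∀ U ∈ 𝒰, ∀ x ∈ U, ∀ y ∈ U, dist x y ≤ 1000 * (R + 1)) ∧
        (∀ U ∈ 𝒰, ∀ W ∈ 𝒰, U ≠ W → c U = c W → ∀ x ∈ U, ∀ y ∈ W, R ≤ dist x y) :=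
  fun R hR => hT.covers hX R hR

end Pool.Agent.Results.MP_9bf88d_al.EquilateralComplexes
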